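import Pool.Agent.Helper67.BT.Stmts

/-! Sections of coordinate-scaled balls (MP_10bc19_gt): module PT. -/

set_option autoImplicit false

open Finset MeasureTheory

namespace Pool.Agent.Helper67.BT

theorem pt_rpow_le {e w : ℝ} (he : 0 < e) (he1 : e ≤ 1) (hw : 0 ≤ w) : w ^ e ≤ 1 + w := by
  rcases le_total w 1 with h | h
  · have := Real.rpow_le_one hw h he.le
    linarith
  · have h1 : w ^ e ≤ w ^ (1 : ℝ) := Real.rpow_le_rpow_of_exponent_le h he1
    rw [Real.rpow_one] at h1
    linarith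

theorem pt_om {e w : ℝ} (he : 0 < e) (he1 : e ≤ 1) (hw : 0 ≤ w) :
    |w ^ e - 1| * w ≤ e * (1 + w) ^ 2 := by
  rcases le_or_gt 1 w with h | h
  · have h1 : 1 ≤ w ^ e := Real.one_le_rpow h he.le
    rw [abs_of_nonneg (by linarith)]
    have h2 := rpow_one_add_le_one_add_mul_self (s := w - 1) (by linarith) he.le he1
    have h3 : 1 + (w - 1) = w := by ring
    rw [h3] at h2
    have h4 : (w ^ e - 1) * w ≤ e * (w - 1) * w := mul_le_mul_of_nonneg_right (by linarith) hw
    have h5 : e * (w - 1) * w ≤ e * (1 + w) ^ 2 := by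
      have h6 : e * (1 + w) ^ 2 - e * (w - 1) * w = e * (1 + 3 * w) := by ring
      have h7 : 0 ≤ e * (1 + 3 * w) := by positivity
      linarith
    linarith
  · rcases hw.eq_or_lt with h0 | h0
    · rw [← h0, mul_zero]
      positivity
    · have h1 : w ^ e ≤ 1 := Real.rpow_le_one hw h.le he.le
      have hwe : 0 < w ^ e := Real.rpow_pos_of_pos h0 e
      rw [abs_of_nonpos (by linarith)]
      have hinv : 1 ≤ 1 / w := by
        rw [le_div_iff₀ h0]
        linarith
      have h2 := rpow_one_add_le_one_add_mul_self (s := 1 / w - 1) (by linarith) he.le he1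
      have h3 : 1 + (1 / w - 1) = 1 / w := by ring
      rw [h3, Real.div_rpow zero_le_one hw, Real.one_rpow, div_le_iff₀ hwe] at h2
      have h4 : (1 + e * (1 / w - 1)) * w ^ e * w = w ^ e * w + e * (1 - w) * w ^ e := by
        field_simp
      have h5 : 1 * w ≤ (1 + e * (1 / w - 1)) * w ^ e * w := mul_le_mul_of_nonneg_right h2 hw
      rw [h4] at h5
      have h6 : e * (1 - w) * w ^ e ≤ e * (1 - w) * 1 :=
        mul_le_mul_of_nonneg_left h1 (by
          have : 0 ≤ 1 - w := by linarith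
          positivity)
      have h7 : e * (1 + w) ^ 2 - e * (1 - w) = e * (3 * w + w ^ 2) := by ring
      have h8 : 0 ≤ e * (3 * w + w ^ 2) := by positivity
      linarith

theorem pt_mvt {f f' : ℝ → ℝ} (hf : ∀ z, HasDerivAt f (f' z) z) (a b C : ℝ)
    (hb : ∀ ξ : ℝ, |ξ| ≤ |a| + |b| → |f' ξ| ≤ C) : |f (a + b) - f (a - b)| ≤ C * (2 * |b|) := by
  have h1 : a - b ∈ Set.Icc (-(|a| + |b|)) (|a| + |b|) := by
    rw [Set.mem_Icc, ← abs_le]
    exact abs_sub a b
  have h2 : a + b ∈ Set.Icc (-(|a| + |b|)) (|a| + |b|) := by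
    rw [Set.mem_Icc, ← abs_le]
    exact abs_add_le a b
  have h3 := Convex.norm_image_sub_le_of_norm_hasDerivWithin_le (f := f) (f' := f') (C := C)
    (s := Set.Icc (-(|a| + |b|)) (|a| + |b|)) (fun z _ => (hf z).hasDerivWithinAt)
    (fun z hz => by
      rw [Set.mem_Icc, ← abs_le] at hz
      rw [Real.norm_eq_abs]
      exact hb z hz) (convex_Icc _ _) h1 h2
  rw [Real.norm_eq_abs, Real.norm_eq_abs] at h3
  have h4 : a + b - (a - b) = 2 * b := by ring
  rw [h4, abs_mul, abs_two] at h3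
  exact h3

theorem st_PT : ST_PT := by
  intro p z a b hp hp3
  have he : 0 < p - 2 := by linarith
  have he1 : p - 2 ≤ 1 := by linarith
  have k7 : ∀ z : ℝ, |z| ^ (p - 2) ≤ 1 + |z| := fun z => pt_rpow_le he he1 (abs_nonneg z)
  have k1 : ∀ z : ℝ, |om p z * z| ≤ (p - 2) * (1 + |z|) ^ 2 := by
    intro z
    rw [abs_mul]
    exact pt_om he he1 (abs_nonneg z)
  have k6 : ∀ z : ℝ, |ps p z| ≤ (1 + |z|) ^ 2 := by
    intro z
    unfold ps
    rw [abs_mul, abs_of_nonneg (Real.rpow_nonneg (abs_nonneg z) _)]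
    have h1 := mul_le_mul_of_nonneg_right (k7 z) (abs_nonneg z)
    have h2 := abs_nonneg z
    nlinarith
  have k2 : ∀ z : ℝ, |Om p z| ≤ 2 * (p - 2) * (1 + |z|) ^ 2 := by
    intro z
    have h0 : (0 : ℝ) < p - 1 := by linarith
    have e1 : Om p z = (om p z * z) / (p - 1) - (p - 2) * z / (p - 1) := by
      unfold Om om ps
      field_simp
      ring
    rw [e1]
    have h1 : |(om p z * z) / (p - 1)| ≤ (p - 2) * (1 + |z|) ^ 2 := by
      rw [abs_div, abs_of_pos h0, div_le_iff₀ h0]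
      have h2 := k1 z
      have h3 : (p - 2) * (1 + |z|) ^ 2 * 1 ≤ (p - 2) * (1 + |z|) ^ 2 * (p - 1) :=
        mul_le_mul_of_nonneg_left (by linarith) (by positivity)
      linarith
    have h4 : |(p - 2) * z / (p - 1)| ≤ (p - 2) * (1 + |z|) ^ 2 := by
      rw [abs_div, abs_of_pos h0, div_le_iff₀ h0, abs_mul, abs_of_pos he]
      have h3 : (p - 2) * (1 + |z|) ^ 2 * 1 ≤ (p - 2) * (1 + |z|) ^ 2 * (p - 1) :=
        mul_le_mul_of_nonneg_left (by linarith) (by positivity)
      have h5 : |z| ≤ (1 + |z|) ^ 2 := by nlinarith [abs_nonneg z]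
      have h6 : (p - 2) * |z| ≤ (p - 2) * (1 + |z|) ^ 2 := mul_le_mul_of_nonneg_left h5 he.le
      linarith
    have h7 := abs_sub ((om p z * z) / (p - 1)) ((p - 2) * z / (p - 1))
    linarith
  have hmono : ∀ ξ : ℝ, |ξ| ≤ |a| + |b| → (1 + |ξ|) ^ 2 ≤ (1 + |a| + |b|) ^ 2 := by
    intro ξ hξ
    exact pow_le_pow_left₀ (by positivity) (by linarith) 2
  refine ⟨k1 z, k2 z, ?_, ?_, ?_, k6 z, k7 z⟩
  · have h := pt_mvt (f := fun z => O2 p z) (f' := fun z => Om p z) (O2_der hp) a b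
      (2 * (p - 2) * (1 + |a| + |b|) ^ 2) (by
        intro ξ hξ
        exact (k2 ξ).trans (mul_le_mul_of_nonneg_left (hmono ξ hξ) (by linarith)))
    refine h.trans (le_of_eq ?_)
    ring
  · have h := pt_mvt (f := fun z => ps p z) (f' := fun z => (p - 1) * |z| ^ (p - 2)) (ps_der hp) a b
      (2 * (1 + |a| + |b|)) (by
        intro ξ hξ
        rw [abs_of_nonneg (mul_nonneg (by linarith) (Real.rpow_nonneg (abs_nonneg ξ) _))]
        exact mul_le_mul (by linarith) ((k7 ξ).trans (by linarith))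
          (Real.rpow_nonneg (abs_nonneg ξ) _) (by norm_num))
    refine h.trans (le_of_eq ?_)
    ring
  · have h := pt_mvt (f := fun z => |z| ^ p) (f' := fun z => p * ps p z)
      (abs_der (by linarith : 1 < p)) a b (3 * (1 + |a| + |b|) ^ 2) (by
        intro ξ hξ
        rw [abs_mul, abs_of_pos (by linarith : 0 < p)]
        exact mul_le_mul hp3 ((k6 ξ).trans (hmono ξ hξ)) (abs_nonneg _) (by norm_num))
    refine h.trans (le_of_eq ?_)
    ring

end Pool.Agent.Helper67.BT
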